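import Pool.Agent.H960R3.DL3

/-!
# An almost discretely Lindelöf T₁ space that is not weakly Lindelöf

Negative answer to Q1 of MP_a09c40_gt (in ZFC), deduced from the starting theorem
`Pool.Agent.H960R3.DL.exists_space`.
-/

set_option autoImplicit false

namespace Pool.Agent.Results.MP_a09c40_gt.AlmostDiscretelyNotWeakly

/-- The space `X` is almost discretely Lindelöf: every subset that is discrete in its subspace
topology is contained in a Lindelöf subset. -/
def AlmostDiscretelyLindelof (X : Type) [TopologicalSpace X] : Prop :=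
  ∀ D : Set X, DiscreteTopology D → ∃ L : Set X, IsLindelof L ∧ D ⊆ L

/-- The space `X` is weakly Lindelöf: every open cover has a countable subfamily whose union is
dense. -/
def WeaklyLindelof (X : Type) [TopologicalSpace X] : Prop :=
  ∀ 𝒰 : Set (Set X), (∀ U ∈ 𝒰, IsOpen U) → ⋃₀ 𝒰 = Set.univ →
    ∃ 𝒱 : Set (Set X), 𝒱 ⊆ 𝒰 ∧ 𝒱.Countable ∧ Dense (⋃₀ 𝒱)

/-- There is a `T₁` space that is almost discretely Lindelöf and not weakly Lindelöf. -/
theorem result :
    ∃ (X : Type) (_ : TopologicalSpace X), T1Space X ∧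
      AlmostDiscretelyLindelof X ∧ ¬ WeaklyLindelof X := by
  obtain ⟨X, tX, hT1, hD, 𝒰, hO, hC, hN⟩ := Pool.Agent.H960R3.DL.exists_space
  refine ⟨X, tX, hT1, ?_, ?_⟩
  · intro D hDisc
    refine ⟨closure D, ?_, subset_closure⟩
    rw [isLindelof_iff_lindelofSpace]
    exact hD D hDisc
  · intro hW
    obtain ⟨𝒱, hV, hVc, hVd⟩ := hW 𝒰 hO hC
    exact hN 𝒱 hV hVc hVd

end Pool.Agent.Results.MP_a09c40_gt.AlmostDiscretelyNotWeakly
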